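import Mathlib
import Pool.Agent.Lib.MP_1dc5fb_an.PhiC1

set_option autoImplicit false

open MeasureTheory Set Filter Topology

namespace Pool.Agent.Results.MP_1dc5fb_an.TwoSolutionsEveryDimension

/-- Positive reactions: `f` is `C^{1,γ}` on `[0,1]` for some `γ ∈ (0,1)`, `f(0) = f(1) = 0`,
`f > 0` on `(0,1)`, `f'(0) > 0` and `f'(1) < 0` (one-sided derivatives at the end points). -/
structure PositiveReaction (f : ℝ → ℝ) : Prop where
  c1 : ContDiffOn ℝ 1 f (Icc 0 1)
  holder : ∃ C γ : NNReal, 0 < γ ∧ γ < 1 ∧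
    HolderOnWith C γ (derivWithin f (Icc 0 1)) (Icc (0 : ℝ) 1)
  zero : f 0 = 0
  one : f 1 = 0
  pos : ∀ s ∈ Ioo (0 : ℝ) 1, 0 < f s
  deriv_zero : 0 < derivWithin f (Icc 0 1) 0
  deriv_one : derivWithin f (Icc 0 1) 1 < 0

/-- The partial derivative of `w : ℝ^k → ℝ` in the `i`-th coordinate. -/
noncomputable def partialDeriv {k : ℕ} (w : (Fin k → ℝ) → ℝ) (i : Fin k) (x : Fin k → ℝ) : ℝ :=
  fderiv ℝ w x (Pi.single i 1)

/-- The epigraph of `φ : ℝ^n → ℝ` in `ℝ^{n+1}`; the last coordinate is the vertical one. -/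
def epigraph {n : ℕ} (φ : (Fin n → ℝ) → ℝ) : Set (Fin (n + 1) → ℝ) :=
  {x | φ (Fin.init x) < x (Fin.last n)}

/-- The point `(y, φ y)` of the graph of `φ`, the boundary of the epigraph. -/
def graphPoint {n : ℕ} (φ : (Fin n → ℝ) → ℝ) (y : Fin n → ℝ) : Fin (n + 1) → ℝ :=
  Fin.snoc (α := fun _ => ℝ) y (φ y)

/-- The surface density `(1 + |∇φ|²)^{1/2}` of the graph of `φ`. -/
noncomputable def surfaceDensity {n : ℕ} (φ : (Fin n → ℝ) → ℝ) (y : Fin n → ℝ) : ℝ :=
  Real.sqrt (1 + ∑ i, partialDeriv φ i y ^ 2)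

/-- Positive bounded solutions of `-Δu = f(u)` in the epigraph of `φ`, `u + α ∂_ν u = 0` on the
boundary, in the weak form: `u` is `C^1` in the epigraph with bounded derivatives, continuous on the
closed epigraph, `0 < u ≤ 1` in the epigraph, and for all compactly supported `C^1` functions `ψ`
on the whole space,
`∫_Ω ∇u·∇ψ dx + (1/α) ∫_{∂Ω} u ψ dS = ∫_Ω f(u) ψ dx`. -/
structure IsPositiveBoundedSolution {n : ℕ} (f : ℝ → ℝ) (α : ℝ) (φ : (Fin n → ℝ) → ℝ)
    (u : (Fin (n + 1) → ℝ) → ℝ) : Prop where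
  c1 : ContDiffOn ℝ 1 u (epigraph φ)
  grad_bdd : ∃ C : ℝ, ∀ x ∈ epigraph φ, ∀ i, |partialDeriv u i x| ≤ C
  cont : ContinuousOn u (closure (epigraph φ))
  range : ∀ x ∈ epigraph φ, 0 < u x ∧ u x ≤ 1
  weak : ∀ ψ : (Fin (n + 1) → ℝ) → ℝ, ContDiff ℝ 1 ψ → HasCompactSupport ψ →
    (∫ x in epigraph φ, ∑ i, partialDeriv u i x * partialDeriv ψ i x)
      + (1 / α) * (∫ y, u (graphPoint φ y) * ψ (graphPoint φ y) * surfaceDensity φ y)
      = ∫ x in epigraph φ, f (u x) * ψ x

/-! ### Adding a coordinate -/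

/-- dropping the first coordinate -/
noncomputable def tl (k : ℕ) : (Fin (k + 1) → ℝ) →L[ℝ] (Fin k → ℝ) :=
  ContinuousLinearMap.pi fun i => ContinuousLinearMap.proj i.succ

lemma tl_apply {k : ℕ} (x : Fin (k + 1) → ℝ) : tl k x = Fin.tail x := rfl

lemma tl_cons {k : ℕ} (t : ℝ) (z : Fin k → ℝ) : tl k (Fin.cons t z : Fin (k + 1) → ℝ) = z := by
  rw [tl_apply, Fin.tail_cons]

lemma tl_single_zero (k : ℕ) : tl k (Pi.single 0 1) = 0 := by
  funext i
  simp [tl_apply, Fin.tail]

lemma tl_single_succ {k : ℕ} (i : Fin k) : tl k (Pi.single i.succ 1) = Pi.single i 1 := by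
  funext j
  simp only [tl_apply, Fin.tail, Pi.single_apply, Fin.succ_inj]

lemma tl_surj (k : ℕ) : Function.Surjective (tl k) := fun z => ⟨Fin.cons 0 z, tl_cons 0 z⟩

lemma isOpenMap_tl (k : ℕ) : IsOpenMap (tl k) := (tl k).isOpenMap (tl_surj k)

lemma partialDeriv_tl_zero {k : ℕ} {w : (Fin k → ℝ) → ℝ} {x : Fin (k + 1) → ℝ}
    (hw : DifferentiableAt ℝ w (tl k x)) : partialDeriv (fun x => w (tl k x)) 0 x = 0 := by
  unfold partialDeriv
  have h : HasFDerivAt (fun x => w (tl k x)) ((fderiv ℝ w (tl k x)).comp (tl k)) x :=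
    hw.hasFDerivAt.comp x (tl k).hasFDerivAt
  rw [h.fderiv, ContinuousLinearMap.comp_apply, tl_single_zero, map_zero]

lemma partialDeriv_tl_succ {k : ℕ} {w : (Fin k → ℝ) → ℝ} {x : Fin (k + 1) → ℝ}
    (hw : DifferentiableAt ℝ w (tl k x)) (i : Fin k) :
    partialDeriv (fun x => w (tl k x)) i.succ x = partialDeriv w i (tl k x) := by
  unfold partialDeriv
  have h : HasFDerivAt (fun x => w (tl k x)) ((fderiv ℝ w (tl k x)).comp (tl k)) x :=
    hw.hasFDerivAt.comp x (tl k).hasFDerivAt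
  rw [h.fderiv, ContinuousLinearMap.comp_apply, tl_single_succ]

/-- inserting a zero as first coordinate -/
noncomputable def consL (k : ℕ) : (Fin k → ℝ) →L[ℝ] (Fin (k + 1) → ℝ) :=
  ContinuousLinearMap.pi fun i : Fin (k + 1) =>
    Fin.cases (motive := fun _ => (Fin k → ℝ) →L[ℝ] ℝ) 0 (fun j => ContinuousLinearMap.proj j) i

lemma consL_single {k : ℕ} (i : Fin k) : consL k (Pi.single i 1) = Pi.single i.succ 1 := by
  funext j
  refine Fin.cases ?_ (fun l => ?_) j
  · simp [consL]
  · simp [consL, Pi.single_apply]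

lemma hasFDerivAt_cons {k : ℕ} (t : ℝ) (z : Fin k → ℝ) :
    HasFDerivAt (fun z : Fin k → ℝ => (Fin.cons t z : Fin (k + 1) → ℝ)) (consL k) z := by
  have e : (fun z : Fin k → ℝ => (Fin.cons t z : Fin (k + 1) → ℝ)) =
      fun z => consL k z + Fin.cons t 0 := by
    funext z j
    refine Fin.cases ?_ (fun l => ?_) j <;> simp [consL]
  rw [e]
  exact (consL k).hasFDerivAt.add_const _

lemma contDiff_cons {k : ℕ} (t : ℝ) :
    ContDiff ℝ 1 (fun z : Fin k → ℝ => (Fin.cons t z : Fin (k + 1) → ℝ)) := by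
  rw [contDiff_pi]
  intro i
  refine Fin.cases ?_ (fun j => ?_) i
  · simpa using contDiff_const
  · simpa using contDiff_apply ℝ ℝ j

lemma partialDeriv_slice {k : ℕ} {ψ : (Fin (k + 1) → ℝ) → ℝ} (hψ : ContDiff ℝ 1 ψ) (t : ℝ)
    (z : Fin k → ℝ) (i : Fin k) :
    partialDeriv (fun z => ψ (Fin.cons t z)) i z = partialDeriv ψ i.succ (Fin.cons t z) := by
  unfold partialDeriv
  have h := ((hψ.differentiable one_ne_zero (Fin.cons t z)).hasFDerivAt).comp z (hasFDerivAt_cons t z)
  have h' : HasFDerivAt (fun z : Fin k → ℝ => ψ (Fin.cons t z)) _ z := h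
  rw [h'.fderiv, ContinuousLinearMap.comp_apply, consL_single]

/-- Fubini for the first coordinate -/
lemma integral_cons {k : ℕ} (F : (Fin (k + 1) → ℝ) → ℝ) (hF : Integrable F) :
    Integrable (fun t : ℝ => ∫ z : Fin k → ℝ, F (Fin.cons t z)) ∧
      ∫ x, F x = ∫ t : ℝ, ∫ z : Fin k → ℝ, F (Fin.cons t z) := by
  have mp := (volume_preserving_piFinSuccAbove (fun _ : Fin (k + 1) => ℝ) 0).symm
  set e := (MeasurableEquiv.piFinSuccAbove (fun _ : Fin (k + 1) => ℝ) 0).symm with he
  have hval : ∀ p : ℝ × (Fin k → ℝ), e p = (Fin.cons p.1 p.2 : Fin (k + 1) → ℝ) := by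
    intro p
    rw [he]
    exact Fin.insertNth_zero' p.1 p.2
  have h1 : Integrable (fun p : ℝ × (Fin k → ℝ) => F (Fin.cons p.1 p.2)) := by
    have := (mp.integrable_comp_emb e.measurableEmbedding).2 hF
    refine this.congr (Eventually.of_forall fun p => ?_)
    simp only [Function.comp]
    rw [hval]
  refine ⟨h1.integral_prod_left, ?_⟩
  have h2 := mp.integral_comp e.measurableEmbedding F
  rw [← h2]
  have h3 : ∀ p : ℝ × (Fin k → ℝ), F (e p) = F (Fin.cons p.1 p.2) := fun p => by rw [hval]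
  simp only [h3]
  exact integral_prod _ h1

lemma setIntegral_cons {k : ℕ} {S : Set (Fin k → ℝ)} (hS : MeasurableSet S)
    (F : (Fin (k + 1) → ℝ) → ℝ) (hF : IntegrableOn F (tl k ⁻¹' S)) :
    Integrable (fun t : ℝ => ∫ z in S, F (Fin.cons t z)) ∧
      ∫ x in tl k ⁻¹' S, F x = ∫ t : ℝ, ∫ z in S, F (Fin.cons t z) := by
  have hS' : MeasurableSet (tl k ⁻¹' S) := hS.preimage (tl k).continuous.measurable
  have h := integral_cons ((tl k ⁻¹' S).indicator F) ((integrable_indicator_iff hS').2 hF)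
  have e : ∀ t : ℝ, ∫ z : Fin k → ℝ, (tl k ⁻¹' S).indicator F (Fin.cons t z) =
      ∫ z in S, F (Fin.cons t z) := by
    intro t
    rw [← integral_indicator hS]
    refine integral_congr_ae (Eventually.of_forall fun z => ?_)
    by_cases hz : z ∈ S
    · have hz' : (Fin.cons t z : Fin (k + 1) → ℝ) ∈ tl k ⁻¹' S := by
        rw [mem_preimage, tl_cons]; exact hz
      simp only [indicator_of_mem hz, indicator_of_mem hz']
    · have hz' : (Fin.cons t z : Fin (k + 1) → ℝ) ∉ tl k ⁻¹' S := by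
        rw [mem_preimage, tl_cons]; exact hz
      simp only [indicator_of_notMem hz, indicator_of_notMem hz']
  simp only [e] at h
  rw [integral_indicator hS'] at h
  exact h

lemma integrableOn_mul {k : ℕ} {S : Set (Fin k → ℝ)} (hS : IsOpen S) {a b : (Fin k → ℝ) → ℝ}
    (ha : ContinuousOn a S) {C : ℝ} (hC : ∀ x ∈ S, |a x| ≤ C) (hb : Continuous b)
    (hbs : HasCompactSupport b) : IntegrableOn (fun x => a x * b x) S := by
  have hi : Integrable b := hb.integrable_of_hasCompactSupport hbs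
  refine Integrable.mono' ((hi.norm.const_mul |C|).integrableOn) ?_ ?_
  · exact (ha.mul hb.continuousOn).aestronglyMeasurable hS.measurableSet
  · filter_upwards [ae_restrict_mem hS.measurableSet] with x hx
    rw [norm_mul]
    exact mul_le_mul_of_nonneg_right ((hC x hx).trans (le_abs_self C)) (norm_nonneg _)

lemma continuous_partialDeriv {k : ℕ} {ψ : (Fin k → ℝ) → ℝ} (hψ : ContDiff ℝ 1 ψ) (i : Fin k) :
    Continuous (partialDeriv ψ i) :=
  (hψ.continuous_fderiv one_ne_zero).clm_apply continuous_const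

lemma hasCompactSupport_partialDeriv {k : ℕ} {ψ : (Fin k → ℝ) → ℝ} (hs : HasCompactSupport ψ)
    (i : Fin k) : HasCompactSupport (partialDeriv ψ i) :=
  (hs.fderiv ℝ).comp_left (g := fun L : (Fin k → ℝ) →L[ℝ] ℝ => L (Pi.single i 1)) rfl

lemma continuousOn_partialDeriv {k : ℕ} {S : Set (Fin k → ℝ)} (hS : IsOpen S)
    {u : (Fin k → ℝ) → ℝ} (hu : ContDiffOn ℝ 1 u S) (i : Fin k) :
    ContinuousOn (partialDeriv u i) S :=
  (hu.continuousOn_fderiv_of_isOpen hS le_rfl).clm_apply continuousOn_const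

lemma continuous_init (n : ℕ) : Continuous (fun x : Fin (n + 1) → ℝ => Fin.init x) :=
  continuous_pi fun i => continuous_apply i.castSucc

lemma isOpen_epigraph {n : ℕ} {φ : (Fin n → ℝ) → ℝ} (hφ : Continuous φ) :
    IsOpen (epigraph φ) :=
  isOpen_lt (hφ.comp (continuous_init n)) (continuous_apply _)

lemma init_graphPoint {n : ℕ} (φ : (Fin n → ℝ) → ℝ) (y : Fin n → ℝ) :
    Fin.init (graphPoint φ y) = y := by
  unfold graphPoint
  exact Fin.init_snoc _ _

lemma continuous_graphPoint {n : ℕ} {φ : (Fin n → ℝ) → ℝ} (hφ : Continuous φ) :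
    Continuous (graphPoint φ) := by
  refine continuous_pi fun i => ?_
  refine Fin.lastCases ?_ (fun j => ?_) i
  · simpa [graphPoint] using hφ
  · simpa [graphPoint] using continuous_apply j

lemma graphPoint_mem {n : ℕ} (φ : (Fin n → ℝ) → ℝ) (y : Fin n → ℝ) :
    graphPoint φ y ∈ closure (epigraph φ) := by
  refine mem_closure_of_tendsto (f := fun k : ℕ =>
    (Fin.snoc (α := fun _ => ℝ) y (φ y + 1 / ((k : ℝ) + 1)) : Fin (n + 1) → ℝ)) (b := atTop) ?_
    (Eventually.of_forall fun k => ?_)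
  · have h2 : Tendsto (fun k : ℕ => φ y + 1 / ((k : ℝ) + 1)) atTop (𝓝 (φ y + 0)) :=
      tendsto_const_nhds.add tendsto_one_div_add_atTop_nhds_zero_nat
    rw [add_zero] at h2
    rw [tendsto_pi_nhds]
    intro i
    refine Fin.lastCases ?_ (fun j => ?_) i
    · simpa [graphPoint] using h2
    · simp [graphPoint]
  · have : (0 : ℝ) < 1 / ((k : ℝ) + 1) := by positivity
    change φ (Fin.init (α := fun _ : Fin (n + 1) => ℝ) (Fin.snoc (α := fun _ => ℝ) y
      (φ y + 1 / ((k : ℝ) + 1)))) < (Fin.snoc (α := fun _ => ℝ) y (φ y + 1 / ((k : ℝ) + 1)) :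
      Fin (n + 1) → ℝ) (Fin.last n)
    rw [Fin.init_snoc, Fin.snoc_last]
    linarith

lemma epigraph_tl {n : ℕ} (φ : (Fin n → ℝ) → ℝ) :
    epigraph (fun y => φ (tl n y)) = tl (n + 1) ⁻¹' epigraph φ := by
  rfl

lemma graphPoint_cons {n : ℕ} (φ : (Fin n → ℝ) → ℝ) (t : ℝ) (z : Fin n → ℝ) :
    graphPoint (fun y => φ (tl n y)) (Fin.cons t z) =
      (Fin.cons t (graphPoint φ z) : Fin (n + 2) → ℝ) := by
  unfold graphPoint
  simp only [tl_cons]
  exact (Fin.cons_snoc_eq_snoc_cons _ _ _).symm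

lemma tl_graphPoint {n : ℕ} (φ : (Fin n → ℝ) → ℝ) (y : Fin (n + 1) → ℝ) :
    tl (n + 1) (graphPoint (fun y => φ (tl n y)) y) = graphPoint φ (tl n y) := by
  have h : y = Fin.cons (y 0) (tl n y) := (Fin.cons_self_tail y).symm
  rw [h, graphPoint_cons, tl_cons, tl_cons]

lemma surfaceDensity_tl {n : ℕ} {φ : (Fin n → ℝ) → ℝ} (hφ : ContDiff ℝ 1 φ)
    (y : Fin (n + 1) → ℝ) :
    surfaceDensity (fun y => φ (tl n y)) y = surfaceDensity φ (tl n y) := by
  have hd : DifferentiableAt ℝ φ (tl n y) := hφ.differentiable one_ne_zero _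
  unfold surfaceDensity
  rw [Fin.sum_univ_succ, partialDeriv_tl_zero hd]
  simp only [partialDeriv_tl_succ hd]
  simp

lemma continuous_surfaceDensity {n : ℕ} {φ : (Fin n → ℝ) → ℝ} (hφ : ContDiff ℝ 1 φ) :
    Continuous (surfaceDensity φ) := by
  unfold surfaceDensity
  refine Real.continuous_sqrt.comp (continuous_const.add ?_)
  exact continuous_finsetSum _ fun i _ => (continuous_partialDeriv hφ i).pow 2

/-- Solutions stay solutions when a coordinate is added. -/
theorem step {n : ℕ} {f : ℝ → ℝ} {α : ℝ} {φ : (Fin n → ℝ) → ℝ} {u : (Fin (n + 1) → ℝ) → ℝ}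
    (hf : ContinuousOn f (Icc 0 1)) (hφ : ContDiff ℝ 1 φ)
    (h : IsPositiveBoundedSolution f α φ u) :
    IsPositiveBoundedSolution f α (fun y => φ (tl n y)) (fun x => u (tl (n + 1) x)) := by
  have hS : IsOpen (epigraph φ) := isOpen_epigraph hφ.continuous
  have hS' : IsOpen (tl (n + 1) ⁻¹' epigraph φ) := hS.preimage (tl (n + 1)).continuous
  have hdu : ∀ x ∈ tl (n + 1) ⁻¹' epigraph φ, DifferentiableAt ℝ u (tl (n + 1) x) := fun x hx =>
    (h.c1.differentiableOn one_ne_zero).differentiableAt (hS.mem_nhds hx)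
  have c1' : ContDiffOn ℝ 1 (fun x => u (tl (n + 1) x)) (tl (n + 1) ⁻¹' epigraph φ) :=
    h.c1.comp (tl (n + 1)).contDiff.contDiffOn fun x hx => hx
  obtain ⟨C, hC⟩ := h.grad_bdd
  have hC' : ∀ x ∈ tl (n + 1) ⁻¹' epigraph φ, ∀ i,
      |partialDeriv (fun x => u (tl (n + 1) x)) i x| ≤ |C| := by
    intro x hx i
    refine Fin.cases ?_ (fun j => ?_) i
    · rw [partialDeriv_tl_zero (hdu x hx), abs_zero]; exact abs_nonneg C
    · rw [partialDeriv_tl_succ (hdu x hx)]; exact (hC _ hx j).trans (le_abs_self C)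
  refine ⟨c1', ⟨|C|, hC'⟩, ?_, fun x hx => h.range _ hx, ?_⟩
  · rw [epigraph_tl, ← (isOpenMap_tl (n + 1)).preimage_closure_eq_closure_preimage
      (tl (n + 1)).continuous]
    exact h.cont.comp (tl (n + 1)).continuous.continuousOn fun x hx => hx
  · intro ψ hψ hs
    rw [epigraph_tl]
    -- the slices of the test function
    have hψt : ∀ t : ℝ, ContDiff ℝ 1 (fun z => ψ (Fin.cons t z)) := fun t =>
      hψ.comp (contDiff_cons t)
    have hst : ∀ t : ℝ, HasCompactSupport (fun z => ψ (Fin.cons t z)) := by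
      intro t
      refine HasCompactSupport.intro (K := tl (n + 1) '' tsupport ψ)
        (hs.isCompact.image (tl (n + 1)).continuous) fun z hz => ?_
      by_contra hne
      refine hz ⟨Fin.cons t z, subset_tsupport _ hne, tl_cons t z⟩
    -- first integral
    have i1 : IntegrableOn (fun x => ∑ i, partialDeriv (fun x => u (tl (n + 1) x)) i x *
        partialDeriv ψ i x) (tl (n + 1) ⁻¹' epigraph φ) := by
      refine integrable_finsetSum _ fun i _ => ?_
      exact integrableOn_mul hS' (continuousOn_partialDeriv hS' c1' i) (fun x hx => hC' x hx i)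
        (continuous_partialDeriv hψ i) (hasCompactSupport_partialDeriv hs i)
    obtain ⟨-, e1⟩ := setIntegral_cons hS.measurableSet _ i1
    have e1' : ∀ t : ℝ, (∫ z in epigraph φ, ∑ i, partialDeriv (fun x => u (tl (n + 1) x)) i
        (Fin.cons t z) * partialDeriv ψ i (Fin.cons t z)) =
        ∫ z in epigraph φ, ∑ i, partialDeriv u i z * partialDeriv (fun z => ψ (Fin.cons t z)) i z := by
      intro t
      refine setIntegral_congr_fun hS.measurableSet fun z hz => ?_
      have hz' : (Fin.cons t z : Fin (n + 2) → ℝ) ∈ tl (n + 1) ⁻¹' epigraph φ := by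
        rw [mem_preimage, tl_cons]; exact hz
      rw [Fin.sum_univ_succ, partialDeriv_tl_zero (hdu _ hz'), zero_mul, zero_add]
      refine Finset.sum_congr rfl fun i _ => ?_
      rw [partialDeriv_tl_succ (hdu _ hz'), tl_cons, partialDeriv_slice hψ]
    -- second integral
    have hug : Continuous (fun z => u (graphPoint φ z)) :=
      h.cont.comp_continuous (continuous_graphPoint hφ.continuous) (graphPoint_mem φ)
    have hφ' : ContDiff ℝ 1 (fun y => φ (tl n y)) := hφ.comp (tl n).contDiff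
    have i2 : Integrable (fun y => u (tl (n + 1) (graphPoint (fun y => φ (tl n y)) y)) *
        ψ (graphPoint (fun y => φ (tl n y)) y) * surfaceDensity (fun y => φ (tl n y)) y) := by
      have hc : Continuous (fun y => u (tl (n + 1) (graphPoint (fun y => φ (tl n y)) y)) *
          ψ (graphPoint (fun y => φ (tl n y)) y) * surfaceDensity (fun y => φ (tl n y)) y) := by
        refine Continuous.mul (Continuous.mul ?_ ?_) ?_
        · simp only [tl_graphPoint]
          exact hug.comp (tl n).continuous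
        · exact hψ.continuous.comp (continuous_graphPoint hφ'.continuous)
        · exact continuous_surfaceDensity hφ'
      refine hc.integrable_of_hasCompactSupport ?_
      refine HasCompactSupport.intro (K := (fun x : Fin (n + 2) → ℝ => Fin.init x) '' tsupport ψ)
        (hs.isCompact.image (continuous_init (n + 1))) fun y hy => ?_
      have : ψ (graphPoint (fun y => φ (tl n y)) y) = 0 := by
        by_contra hne
        exact hy ⟨_, subset_tsupport _ hne, init_graphPoint _ _⟩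
      rw [this, mul_zero, zero_mul]
    obtain ⟨j2, e2⟩ := integral_cons _ i2
    have e2' : ∀ t : ℝ, (∫ z : Fin n → ℝ, u (tl (n + 1) (graphPoint (fun y => φ (tl n y))
        (Fin.cons t z))) * ψ (graphPoint (fun y => φ (tl n y)) (Fin.cons t z)) *
        surfaceDensity (fun y => φ (tl n y)) (Fin.cons t z)) =
        ∫ z : Fin n → ℝ, u (graphPoint φ z) * ψ (Fin.cons t (graphPoint φ z)) *
          surfaceDensity φ z := by
      intro t
      refine integral_congr_ae (Eventually.of_forall fun z => ?_)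
      simp only
      rw [tl_graphPoint, graphPoint_cons, surfaceDensity_tl hφ, tl_cons]
    -- third integral
    have i3 : IntegrableOn (fun x => f (u (tl (n + 1) x)) * ψ x) (tl (n + 1) ⁻¹' epigraph φ) := by
      obtain ⟨B, hB⟩ := isCompact_Icc.exists_bound_of_continuousOn hf
      refine integrableOn_mul hS' (C := B) ?_ (fun x hx => ?_) hψ.continuous hs
      · refine hf.comp c1'.continuousOn fun x hx => ?_
        have := h.range _ hx
        exact ⟨this.1.le, this.2⟩
      · have := h.range _ hx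
        exact hB _ ⟨this.1.le, this.2⟩
    obtain ⟨j3, e3⟩ := setIntegral_cons hS.measurableSet _ i3
    have e3' : ∀ t : ℝ, (∫ z in epigraph φ, f (u (tl (n + 1) (Fin.cons t z))) *
        ψ (Fin.cons t z)) = ∫ z in epigraph φ, f (u z) * ψ (Fin.cons t z) := by
      intro t
      refine setIntegral_congr_fun hS.measurableSet fun z hz => ?_
      simp only [tl_cons]
    rw [e1, e2, e3]
    simp only [e1', e2', e3'] at j2 j3 ⊢
    rw [← integral_const_mul, ← integral_add ?_ (j2.const_mul _)]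
    · refine integral_congr_ae (Eventually.of_forall fun t => ?_)
      exact h.weak _ (hψt t) (hst t)
    · have : (fun t : ℝ => ∫ z in epigraph φ, ∑ i, partialDeriv u i z *
          partialDeriv (fun z => ψ (Fin.cons t z)) i z) = fun t =>
          (∫ z in epigraph φ, f (u z) * ψ (Fin.cons t z)) - (1 / α) *
            ∫ z : Fin n → ℝ, u (graphPoint φ z) * ψ (Fin.cons t (graphPoint φ z)) *
              surfaceDensity φ z := by
        funext t
        have := h.weak _ (hψt t) (hst t)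
        linarith
      rw [this]
      exact j3.sub (j2.const_mul _)

/-! ### The planar example -/

open Pool.Agent.Lib.MP_1dc5fb in
/-- the boundary function of the planar example -/
noncomputable def phi1 (y : Fin 1 → ℝ) : ℝ := phi (y 0)

open Pool.Agent.Lib.MP_1dc5fb in
/-- the planar solution attached to a solution in the half plane -/
noncomputable def sol1 (U : ℝ × ℝ → ℝ) (x : Fin 2 → ℝ) : ℝ := tw U (x 0, x 1)

open Pool.Agent.Lib.MP_1dc5fb in
lemma contDiff_phi1 : ContDiff ℝ 1 phi1 := contDiff_phi.comp (contDiff_apply ℝ ℝ (0 : Fin 1))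

open Pool.Agent.Lib.MP_1dc5fb in
lemma lipschitz_phi1 : ∃ K : NNReal, LipschitzWith K phi1 :=
  ⟨_, phi_lip.comp (LipschitzWith.eval 0)⟩

open Pool.Agent.Lib.MP_1dc5fb in
lemma epigraph_phi1 : epigraph phi1 = {x : Fin 2 → ℝ | ((x 0, x 1) : ℝ × ℝ) ∈ Epi} := rfl

open Pool.Agent.Lib.MP_1dc5fb in
lemma partialDeriv_phi1 (y : Fin 1 → ℝ) : partialDeriv phi1 0 y = phi' (y 0) := by
  unfold partialDeriv
  have h1 : HasFDerivAt (fun y : Fin 1 → ℝ => y 0)
      (ContinuousLinearMap.proj (R := ℝ) (φ := fun _ : Fin 1 => ℝ) 0) y :=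
    (ContinuousLinearMap.proj (R := ℝ) (φ := fun _ : Fin 1 => ℝ) 0).hasFDerivAt
  have h := (hasDerivAt_phi (y 0)).hasFDerivAt.comp y h1
  have h' : HasFDerivAt phi1 _ y := h
  rw [h'.fderiv]
  simp

open Pool.Agent.Lib.MP_1dc5fb in
lemma surfaceDensity_phi1 (y : Fin 1 → ℝ) :
    surfaceDensity phi1 y = Real.sqrt (1 + phi' (y 0) ^ 2) := by
  unfold surfaceDensity
  rw [Fin.sum_univ_one, partialDeriv_phi1]

/-- the coordinates of the plane -/
noncomputable def e2 : (Fin 2 → ℝ) ≃L[ℝ] ℝ × ℝ := ContinuousLinearEquiv.finTwoArrow ℝ ℝ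

lemma e2_apply (x : Fin 2 → ℝ) : e2 x = (x 0, x 1) := rfl

lemma e2_single_zero : e2 (Pi.single 0 1) = (1, 0) := by
  rw [e2_apply]; simp

lemma e2_single_one : e2 (Pi.single 1 1) = (0, 1) := by
  rw [e2_apply]; simp

lemma mp_e2 : MeasurePreserving e2 volume volume := volume_preserving_finTwoArrow ℝ

lemma emb_e2 : MeasurableEmbedding e2 := e2.toHomeomorph.measurableEmbedding

open Pool.Agent.Lib.MP_1dc5fb in
lemma integral_e2 (F : ℝ × ℝ → ℝ) : ∫ x in epigraph phi1, F (e2 x) = ∫ v in Epi, F v :=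
  mp_e2.setIntegral_preimage_emb emb_e2 F Epi

lemma integral_one (G : (Fin 1 → ℝ) → ℝ) : ∫ y, G y = ∫ X : ℝ, G (fun _ => X) := by
  have h := (volume_preserving_funUnique (Fin 1) ℝ).symm.integral_comp
    (MeasurableEquiv.funUnique (Fin 1) ℝ).symm.measurableEmbedding G
  exact h.symm

open Pool.Agent.Lib.MP_1dc5fb in
lemma isPositiveBoundedSolution_sol1 {U Ux Uy : ℝ × ℝ → ℝ} (hU : HSol U Ux Uy) :
    IsPositiveBoundedSolution fr (2 / (Real.pi * pc)) phi1 (sol1 U) := by
  have hS : IsOpen (epigraph phi1) := isOpen_epigraph contDiff_phi1.continuous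
  have hder : ∀ x ∈ epigraph phi1, HasFDerivAt (sol1 U)
      ((lin (twX Ux Uy (e2 x)) (twY Ux Uy (e2 x))).comp (e2 : (Fin 2 → ℝ) →L[ℝ] ℝ × ℝ)) x :=
    fun x hx => (hasFDerivAt_tw hU.c1 (v := e2 x) hx).comp x e2.toContinuousLinearMap.hasFDerivAt
  have hp0 : ∀ x ∈ epigraph phi1, partialDeriv (sol1 U) 0 x = twX Ux Uy (e2 x) := by
    intro x hx
    unfold partialDeriv
    rw [(hder x hx).fderiv, ContinuousLinearMap.comp_apply]
    change lin _ _ (e2 (Pi.single 0 1)) = _
    rw [e2_single_zero, lin_apply]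
    ring
  have hp1 : ∀ x ∈ epigraph phi1, partialDeriv (sol1 U) 1 x = twY Ux Uy (e2 x) := by
    intro x hx
    unfold partialDeriv
    rw [(hder x hx).fderiv, ContinuousLinearMap.comp_apply]
    change lin _ _ (e2 (Pi.single 1 1)) = _
    rw [e2_single_one, lin_apply]
    ring
  set ε : (Fin 2 → ℝ) ≃L[ℝ] E2 := (EuclideanSpace.equiv (Fin 2) ℝ).symm with hε
  have hsol : sol1 U = fun x => sol U (ε x) := rfl
  have hOm : epigraph phi1 = ε ⁻¹' Om := rfl
  refine ⟨?_, ?_, ?_, fun x hx => range_sol hU (x := ε x) hx, ?_⟩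
  · rw [hsol, hOm]
    exact (contDiffOn_sol hU.c1).comp ε.contDiff.contDiffOn fun x hx => hx
  · obtain ⟨C, hC⟩ := hU.grad
    refine ⟨Real.sqrt (2 * C ^ 2), fun x hx i => ?_⟩
    have h := tw_grad_le hC (v := e2 x) hx
    refine Fin.cases ?_ (fun j => ?_) i
    · rw [hp0 x hx]
      refine Real.abs_le_sqrt ?_
      nlinarith [sq_nonneg (twY Ux Uy (e2 x))]
    · have hj : (Fin.succ j : Fin 2) = 1 := by
        have : j = 0 := Subsingleton.elim _ _
        rw [this]; rfl
      rw [hj, hp1 x hx]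
      refine Real.abs_le_sqrt ?_
      nlinarith [sq_nonneg (twX Ux Uy (e2 x))]
  · rw [hsol, hOm]
    have hcl : closure (ε ⁻¹' Om) = ε ⁻¹' closure Om :=
      (ε.toHomeomorph.preimage_closure Om).symm
    rw [hcl]
    exact (continuousOn_sol hU.c1).comp ε.continuous.continuousOn fun x hx => hx
  · intro ψ hψ hs
    set p : ℝ × ℝ → ℝ := fun v => ψ (e2.symm v) with hp
    have hpC : ContDiff ℝ 1 p := hψ.comp e2.symm.contDiff
    have hpd : ∀ v, HasFDerivAt p (lin (fderiv ℝ p v (1, 0)) (fderiv ℝ p v (0, 1))) v := by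
      intro v
      have h1 := (hpC.differentiable one_ne_zero v).hasFDerivAt
      refine h1.congr_fderiv ?_
      ext <;> simp [lin]
    have hfc : Continuous (fderiv ℝ p) := hpC.continuous_fderiv one_ne_zero
    have hX : Continuous (fun v => fderiv ℝ p v (1, 0)) := hfc.clm_apply continuous_const
    have hY : Continuous (fun v => fderiv ℝ p v (0, 1)) := hfc.clm_apply continuous_const
    have hps : HasCompactSupport p := hs.comp_homeomorph e2.symm.toHomeomorph
    have hsupp : ∃ M : ℝ, ∀ v, M ≤ dsq v (hm (0, 0)) → p v = 0 ∧ fderiv ℝ p v (1, 0) = 0 ∧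
        fderiv ℝ p v (0, 1) = 0 := by
      have hdc : Continuous (fun v => dsq v (hm (0, 0))) := by unfold dsq; fun_prop
      obtain ⟨M, hM⟩ := hps.isCompact.exists_bound_of_continuousOn hdc.continuousOn
      refine ⟨M + 1, fun v hv => ?_⟩
      have hnot : v ∉ tsupport p := by
        intro hmem
        have := hM v hmem
        rw [Real.norm_eq_abs] at this
        have := (abs_le.1 this).2
        linarith
      refine ⟨image_eq_zero_of_notMem_tsupport hnot, ?_, ?_⟩
      · rw [fderiv_of_notMem_tsupport _ hnot]; rfl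
      · rw [fderiv_of_notMem_tsupport _ hnot]; rfl
    have key := weak_transfer hU hX hY hpd hsupp
    have hψp : ∀ x, ψ x = p (e2 x) := fun x => by
      simp only [hp, ContinuousLinearEquiv.symm_apply_apply]
    have hψd : ∀ x, HasFDerivAt ψ ((fderiv ℝ p (e2 x)).comp (e2 : (Fin 2 → ℝ) →L[ℝ] ℝ × ℝ)) x := by
      intro x
      have h1 := ((hpC.differentiable one_ne_zero (e2 x)).hasFDerivAt).comp x
        e2.toContinuousLinearMap.hasFDerivAt
      have e : ψ = fun x => p (e2 x) := funext hψp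
      rw [e]
      exact h1
    have q0 : ∀ x, partialDeriv ψ 0 x = fderiv ℝ p (e2 x) (1, 0) := by
      intro x
      unfold partialDeriv
      rw [(hψd x).fderiv, ContinuousLinearMap.comp_apply]
      change fderiv ℝ p (e2 x) (e2 (Pi.single 0 1)) = _
      rw [e2_single_zero]
    have q1 : ∀ x, partialDeriv ψ 1 x = fderiv ℝ p (e2 x) (0, 1) := by
      intro x
      unfold partialDeriv
      rw [(hψd x).fderiv, ContinuousLinearMap.comp_apply]
      change fderiv ℝ p (e2 x) (e2 (Pi.single 1 1)) = _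
      rw [e2_single_one]
    have a1 : (∫ x in epigraph phi1, ∑ i, partialDeriv (sol1 U) i x * partialDeriv ψ i x) =
        ∫ v in Epi, (twX Ux Uy v * fderiv ℝ p v (1, 0) + twY Ux Uy v * fderiv ℝ p v (0, 1)) := by
      rw [← integral_e2]
      refine setIntegral_congr_fun hS.measurableSet fun x hx => ?_
      rw [Fin.sum_univ_two, hp0 x hx, hp1 x hx, q0, q1]
    have a2 : (∫ y, sol1 U (graphPoint phi1 y) * ψ (graphPoint phi1 y) * surfaceDensity phi1 y) =
        ∫ t, Real.sqrt (Gb t) * (U (t, 0) * p (hm (t, 0))) := by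
      rw [integral_one]
      have e1 : ∀ X : ℝ, e2 (graphPoint phi1 (fun _ => X)) = (X, phi X) := fun X => rfl
      have e3 : ∀ t : ℝ, Real.sqrt (Gb t) * (U (t, 0) * p (hm (t, 0))) =
          Real.sqrt (Gb t) * (fun v => tw U v * p v) (hm (t, 0)) := by
        intro t
        simp only
        unfold tw
        rw [jm_hm (mem_bdry t)]
      simp only [e3]
      rw [bdry_integral (fun v => tw U v * p v)]
      refine integral_congr_ae (Eventually.of_forall fun X => ?_)
      simp only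
      rw [hψp, e1, surfaceDensity_phi1]
      rfl
    have a3 : (∫ x in epigraph phi1, fr (sol1 U x) * ψ x) = ∫ v in Epi, fr (tw U v) * p v := by
      rw [← integral_e2]
      refine setIntegral_congr_fun hS.measurableSet fun x hx => ?_
      rw [hψp]
      rfl
    have e : 1 / (2 / (Real.pi * pc)) = Real.pi * pc / 2 := by
      have := Real.pi_pos
      have := pc_pos
      field_simp
    rw [a1, a2, a3, e]
    exact key

open Pool.Agent.Lib.MP_1dc5fb in
lemma positiveReaction_fr : PositiveReaction fr := by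
  have hd : ∀ s ∈ Icc (0 : ℝ) 1, derivWithin fr (Icc 0 1) s = deriv fr s := fun s hs =>
    ((contDiff_fr (n := 1)).differentiable one_ne_zero s).derivWithin
      (uniqueDiffOn_Icc_zero_one s hs)
  obtain ⟨C, γ, h1, h2, h3⟩ := holder_fr
  refine ⟨(contDiff_fr (n := 1)).contDiffOn, ⟨C, γ, h1, h2, ?_⟩, fr_zero, fr_one,
    fun s hs => fr_pos hs, ?_, ?_⟩
  · intro x hx y hy
    rw [hd x hx, hd y hy]
    exact h3 x hx y hy
  · rw [hd 0 (by simp)]; exact deriv_fr_zero
  · rw [hd 1 (by simp)]; exact deriv_fr_one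

/-- **Main theorem.** One real-analytic positive reaction and one `α > 0` such that in every
dimension `d = n + 1 ≥ 2` some uniformly Lipschitz epigraph of class `C^1` carries two distinct
positive bounded solutions of the Robin problem. -/
theorem result :
    ∃ f : ℝ → ℝ, ContDiff ℝ ⊤ f ∧ PositiveReaction f ∧ ∃ α : ℝ, 0 < α ∧
      ∀ n : ℕ, 1 ≤ n → ∃ φ : (Fin n → ℝ) → ℝ, ContDiff ℝ 1 φ ∧ (∃ K : NNReal, LipschitzWith K φ) ∧
        ∃ u v : (Fin (n + 1) → ℝ) → ℝ,
          IsPositiveBoundedSolution f α φ u ∧ IsPositiveBoundedSolution f α φ v ∧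
          ∃ x ∈ epigraph φ, u x ≠ v x := by
  obtain ⟨U, Ux, Uy, V, Vx, Vy, hU, hV, hlt⟩ := Pool.Agent.Lib.MP_1dc5fb.exists_two
  refine ⟨Pool.Agent.Lib.MP_1dc5fb.fr, Pool.Agent.Lib.MP_1dc5fb.contDiff_fr,
    positiveReaction_fr, 2 / (Real.pi * Pool.Agent.Lib.MP_1dc5fb.pc), ?_, fun n hn => ?_⟩
  · have := Real.pi_pos
    have := Pool.Agent.Lib.MP_1dc5fb.pc_pos
    positivity
  · induction n, hn using Nat.le_induction with
    | base =>
      refine ⟨phi1, contDiff_phi1, lipschitz_phi1, sol1 U, sol1 V,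
        isPositiveBoundedSolution_sol1 hU, isPositiveBoundedSolution_sol1 hV, ?_⟩
      by_contra hne
      push Not at hne
      have hu := (isPositiveBoundedSolution_sol1 hU).cont
      have hv := (isPositiveBoundedSolution_sol1 hV).cont
      have h2 : EqOn (sol1 U) (sol1 V) (closure (epigraph phi1)) :=
        EqOn.of_subset_closure (s := epigraph phi1) (fun x hx => hne x hx) hu hv subset_closure
          subset_rfl
      have h3 := h2 (graphPoint_mem phi1 (fun _ => Pool.Agent.Lib.MP_1dc5fb.Xb 0))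
      have e : ∀ W : ℝ × ℝ → ℝ, sol1 W (graphPoint phi1 (fun _ =>
          Pool.Agent.Lib.MP_1dc5fb.Xb 0)) = W (0, 0) := by
        intro W
        change Pool.Agent.Lib.MP_1dc5fb.tw W (Pool.Agent.Lib.MP_1dc5fb.Xb 0,
          Pool.Agent.Lib.MP_1dc5fb.phi (Pool.Agent.Lib.MP_1dc5fb.Xb 0)) = _
        rw [Pool.Agent.Lib.MP_1dc5fb.phi_Xb]
        change Pool.Agent.Lib.MP_1dc5fb.tw W (Pool.Agent.Lib.MP_1dc5fb.hm (0, 0)) = _
        unfold Pool.Agent.Lib.MP_1dc5fb.tw
        rw [Pool.Agent.Lib.MP_1dc5fb.jm_hm (Pool.Agent.Lib.MP_1dc5fb.mem_bdry 0)]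
      rw [e, e] at h3
      linarith
    | succ n hn ih =>
      obtain ⟨φ, hφ, ⟨K, hK⟩, u, v, hu, hv, x, hx, hne⟩ := ih
      have hf : ContinuousOn Pool.Agent.Lib.MP_1dc5fb.fr (Icc 0 1) :=
        positiveReaction_fr.c1.continuousOn
      refine ⟨fun y => φ (tl n y), hφ.comp (tl n).contDiff,
        ⟨_, hK.comp (tl n).lipschitz⟩, fun x => u (tl (n + 1) x), fun x => v (tl (n + 1) x),
        step hf hφ hu, step hf hφ hv, Fin.cons 0 x, ?_, ?_⟩
      · rw [epigraph_tl, mem_preimage, tl_cons]; exact hx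
      · simp only [tl_cons]; exact hne

end Pool.Agent.Results.MP_1dc5fb_an.TwoSolutionsEveryDimension
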